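import Pool.Agent.LPK.Stmts

/-!
# LPK, row BDD: growth of a polynomial of a pair
-/

set_option autoImplicit false

noncomputable section

open MeasureTheory Filter Topology
open scoped RealInnerProductSpace

namespace Pool.Agent.LPK.H77

open Pool.Agent.LPK

/-- one term -/
theorem term (c : ℝ) (i j k m : ℕ) (hm : i + j + k ≤ m) (a b h : ℝ) (ha : 0 ≤ a) (hb : 0 ≤ b)
    (hh : |h| ≤ (1 + a) * (1 + b)) :
    |c * a ^ i * b ^ j * h ^ k| ≤ |c| * (1 + a) ^ m * (1 + b) ^ m := by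
  have h1a : 1 ≤ 1 + a := by linarith
  have h1b : 1 ≤ 1 + b := by linarith
  rw [abs_mul, abs_mul, abs_mul, abs_pow, abs_pow, abs_pow, abs_of_nonneg ha, abs_of_nonneg hb]
  have e1 : a ^ i ≤ (1 + a) ^ i := pow_le_pow_left₀ ha (by linarith) i
  have e2 : b ^ j ≤ (1 + b) ^ j := pow_le_pow_left₀ hb (by linarith) j
  have e3 : |h| ^ k ≤ ((1 + a) * (1 + b)) ^ k := pow_le_pow_left₀ (abs_nonneg h) hh k
  have e4 : (1 + a) ^ (i + k) ≤ (1 + a) ^ m := pow_le_pow_right₀ h1a (by omega)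
  have e5 : (1 + b) ^ (j + k) ≤ (1 + b) ^ m := pow_le_pow_right₀ h1b (by omega)
  calc |c| * a ^ i * b ^ j * |h| ^ k
      ≤ |c| * (1 + a) ^ i * (1 + b) ^ j * ((1 + a) * (1 + b)) ^ k := by
        apply mul_le_mul _ e3 (by positivity) (by positivity)
        apply mul_le_mul _ e2 (by positivity) (by positivity)
        exact mul_le_mul_of_nonneg_left e1 (abs_nonneg c)
    _ = |c| * (1 + a) ^ (i + k) * (1 + b) ^ (j + k) := by
        rw [mul_pow, pow_add, pow_add]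
        ring
    _ ≤ |c| * (1 + a) ^ m * (1 + b) ^ m := by
        apply mul_le_mul _ e5 (by positivity) (by positivity)
        exact mul_le_mul_of_nonneg_left e4 (abs_nonneg c)

/-- **BDD** -/
theorem bdd : BddStmt := by
  intro p
  induction p with
  | nil =>
    refine ⟨0, 0, le_rfl, fun n x y => ?_⟩
    unfold e3
    simp
  | cons t p ih =>
    obtain ⟨C, m, hC, h⟩ := ih
    refine ⟨|(t.1 : ℝ)| + C, t.2.1 + t.2.2.1 + t.2.2.2 + m, by positivity, fun n x y => ?_⟩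
    have h1 := h n x y
    have hx : 0 ≤ ‖x‖ ^ 2 := by positivity
    have hy : 0 ≤ ‖y‖ ^ 2 := by positivity
    have hin : |⟪x, y⟫| ≤ (1 + ‖x‖ ^ 2) * (1 + ‖y‖ ^ 2) := by
      refine (abs_real_inner_le_norm x y).trans ?_
      apply mul_le_mul _ _ (norm_nonneg y) (by positivity)
      · nlinarith [sq_nonneg (‖x‖ - 1)]
      · nlinarith [sq_nonneg (‖y‖ - 1)]
    have h2 := term (t.1 : ℝ) t.2.1 t.2.2.1 t.2.2.2 (t.2.1 + t.2.2.1 + t.2.2.2 + m) (by omega)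
      (‖x‖ ^ 2) (‖y‖ ^ 2) ⟪x, y⟫ hx hy hin
    have e1 : (1 + ‖x‖ ^ 2) ^ m ≤ (1 + ‖x‖ ^ 2) ^ (t.2.1 + t.2.2.1 + t.2.2.2 + m) :=
      pow_le_pow_right₀ (by linarith) (by omega)
    have e2 : (1 + ‖y‖ ^ 2) ^ m ≤ (1 + ‖y‖ ^ 2) ^ (t.2.1 + t.2.2.1 + t.2.2.2 + m) :=
      pow_le_pow_right₀ (by linarith) (by omega)
    have e3' : C * (1 + ‖x‖ ^ 2) ^ m * (1 + ‖y‖ ^ 2) ^ m ≤
        C * (1 + ‖x‖ ^ 2) ^ (t.2.1 + t.2.2.1 + t.2.2.2 + m) *
          (1 + ‖y‖ ^ 2) ^ (t.2.1 + t.2.2.1 + t.2.2.2 + m) := by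
      apply mul_le_mul _ e2 (by positivity) (by positivity)
      exact mul_le_mul_of_nonneg_left e1 hC
    have e4 : e3 (t :: p) (‖x‖ ^ 2) (‖y‖ ^ 2) ⟪x, y⟫ =
        (t.1 : ℝ) * (‖x‖ ^ 2) ^ t.2.1 * (‖y‖ ^ 2) ^ t.2.2.1 * ⟪x, y⟫ ^ t.2.2.2 +
          e3 p (‖x‖ ^ 2) (‖y‖ ^ 2) ⟪x, y⟫ := by
      unfold e3
      rw [List.map_cons, List.sum_cons]
    rw [e4, add_mul, add_mul]
    exact (abs_add_le _ _).trans (add_le_add h2 (h1.trans e3'))

end Pool.Agent.LPK.H77
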